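import Pool.Agent.Lib.MP_6bc78b_nt.SW.Iface

/-! TLB: trivial bounds for `L(s,χ)`, `Re s > 1`. -/

set_option autoImplicit false

open Complex Finset DirichletCharacter
open scoped ArithmeticFunction.Moebius

namespace Pool.Agent.Lib.MP_6bc78b_nt.SW.H30

open Pool.Agent.Lib.MP_6bc78b_nt.SW

theorem summable_one_div {σ : ℝ} (hσ : 1 < σ) :
    Summable fun n : ℕ => (if n = 0 then (0 : ℝ) else (n : ℝ) ^ (-σ)) := by
  have h := (Real.summable_nat_rpow (p := -σ)).2 (by linarith)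
  refine h.congr fun n => ?_
  by_cases hn : n = 0
  · subst hn
    rw [if_pos rfl, Nat.cast_zero, Real.zero_rpow (by linarith)]
  · rw [if_neg hn]

theorem tsum_one_div_le {σ : ℝ} (hσ : 1 < σ) :
    ∑' n : ℕ, (if n = 0 then (0 : ℝ) else (n : ℝ) ^ (-σ)) ≤ 1 + 1 / (σ - 1) := by
  have hs := summable_one_div hσ
  rw [hs.tsum_eq_zero_add, if_pos rfl, zero_add]
  have hs1 : Summable fun n : ℕ => (if n + 1 = 0 then (0 : ℝ) else ((n + 1 : ℕ) : ℝ) ^ (-σ)) :=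
    (summable_nat_add_iff 1).2 hs
  rw [hs1.tsum_eq_zero_add]
  have h0 : (if 0 + 1 = 0 then (0 : ℝ) else ((0 + 1 : ℕ) : ℝ) ^ (-σ)) = 1 := by simp
  rw [h0]
  have hant : AntitoneOn (fun x : ℝ => x ^ (-σ)) (Set.Ici ((1 : ℕ) : ℝ)) := by
    intro x hx y _ hxy
    rw [Set.mem_Ici, Nat.cast_one] at hx
    exact Real.rpow_le_rpow_of_nonpos (by linarith) hxy (by linarith)
  have hint : MeasureTheory.IntegrableOn (fun x : ℝ => x ^ (-σ)) (Set.Ioi ((1 : ℕ) : ℝ)) :=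
    integrableOn_Ioi_rpow_of_lt (by linarith) (by norm_num)
  have hnn : ∀ t ∈ Set.Ioi ((1 : ℕ) : ℝ), 0 ≤ (fun x : ℝ => x ^ (-σ)) t := by
    intro t ht
    rw [Set.mem_Ioi, Nat.cast_one] at ht
    exact Real.rpow_nonneg (by linarith) _
  have h1 := hant.tsum_comp_add_le_integral 1 hint hnn
  have h2 : ∫ x in Set.Ioi ((1 : ℕ) : ℝ), x ^ (-σ) = 1 / (σ - 1) := by
    rw [integral_Ioi_rpow_of_lt (by linarith) (by norm_num), Nat.cast_one, Real.one_rpow]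
    rw [show -σ + 1 = -(σ - 1) by ring, neg_div_neg_eq]
  have h3 : ∀ n : ℕ, (if n + 1 + 1 = 0 then (0 : ℝ) else ((n + 1 + 1 : ℕ) : ℝ) ^ (-σ))
      = ((n + 1 + 1 : ℕ) : ℝ) ^ (-σ) := by
    intro n
    rw [if_neg (by omega)]
  simp only [h3]
  rw [h2] at h1
  linarith

theorem norm_LSeries_le {f : ℕ → ℂ} (hf : ∀ n, ‖f n‖ ≤ 1) {σ t : ℝ} (hσ : 1 < σ) (hσ2 : σ ≤ 2) :
    ‖LSeries f (σ + t * I)‖ ≤ 2 / (σ - 1) := by
  have hre : ((σ : ℂ) + t * I).re = σ := by simp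
  have hb : ∀ n : ℕ, ‖LSeries.term f (σ + t * I) n‖ ≤ (if n = 0 then (0 : ℝ) else (n : ℝ) ^ (-σ)) := by
    intro n
    rw [LSeries.norm_term_eq, hre]
    by_cases hn : n = 0
    · rw [if_pos hn, if_pos hn]
    · rw [if_neg hn, if_neg hn, Real.rpow_neg (Nat.cast_nonneg n), div_eq_mul_inv]
      have h0 : 0 ≤ ((n : ℝ) ^ σ)⁻¹ := inv_nonneg.2 (Real.rpow_nonneg (Nat.cast_nonneg n) _)
      calc ‖f n‖ * ((n : ℝ) ^ σ)⁻¹ ≤ 1 * ((n : ℝ) ^ σ)⁻¹ := mul_le_mul_of_nonneg_right (hf n) h0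
        _ = _ := one_mul _
  have hs := summable_one_div hσ
  have hsn : Summable fun n => ‖LSeries.term f (σ + t * I) n‖ :=
    Summable.of_nonneg_of_le (fun n => norm_nonneg _) hb hs
  have h1 : (0 : ℝ) < σ - 1 := by linarith
  calc ‖LSeries f (σ + t * I)‖ ≤ ∑' n, ‖LSeries.term f (σ + t * I) n‖ := norm_tsum_le_tsum_norm hsn
    _ ≤ ∑' n : ℕ, (if n = 0 then (0 : ℝ) else (n : ℝ) ^ (-σ)) := hsn.tsum_le_tsum hb hs
    _ ≤ 1 + 1 / (σ - 1) := tsum_one_div_le hσ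
    _ ≤ 2 / (σ - 1) := by
      rw [show (2 : ℝ) / (σ - 1) = 1 / (σ - 1) + 1 / (σ - 1) by ring]
      have : 1 ≤ 1 / (σ - 1) := by
        rw [le_div_iff₀ h1]
        linarith
      linarith

theorem tlb : TlbStatement := by
  refine ⟨?_, ?_⟩
  · intro q _ χ σ t hσ hσ2
    have hre : 1 < ((σ : ℂ) + t * I).re := by simpa using hσ
    have h := DirichletCharacter.LSeries.mul_mu_eq_one χ hre
    have hn : ‖LSeries (fun n : ℕ => χ (n : ZMod q)) (σ + t * I)‖ *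
        ‖LSeries ((fun n : ℕ => χ (n : ZMod q)) * (fun n : ℕ => ((ArithmeticFunction.moebius n : ℤ) : ℂ)))
          (σ + t * I)‖ = 1 := by
      rw [← norm_mul, h, norm_one]
    have hb : ‖LSeries ((fun n : ℕ => χ (n : ZMod q)) *
        (fun n : ℕ => ((ArithmeticFunction.moebius n : ℤ) : ℂ))) (σ + t * I)‖ ≤ 2 / (σ - 1) := by
      refine norm_LSeries_le (fun n => ?_) hσ hσ2
      rw [Pi.mul_apply, norm_mul]
      have h1 : ‖χ (n : ZMod q)‖ ≤ 1 := χ.norm_le_one _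
      have h2 : ‖((ArithmeticFunction.moebius n : ℤ) : ℂ)‖ ≤ 1 := by
        rw [Complex.norm_intCast]
        exact_mod_cast ArithmeticFunction.abs_moebius_le_one
      calc ‖χ (n : ZMod q)‖ * ‖((ArithmeticFunction.moebius n : ℤ) : ℂ)‖ ≤ 1 * 1 :=
            mul_le_mul h1 h2 (norm_nonneg _) zero_le_one
        _ = 1 := one_mul 1
    have h1 : (0 : ℝ) < σ - 1 := by linarith
    set a := ‖LSeries (fun n : ℕ => χ (n : ZMod q)) (σ + t * I)‖ with ha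
    set c := ‖LSeries ((fun n : ℕ => χ (n : ZMod q)) *
        (fun n : ℕ => ((ArithmeticFunction.moebius n : ℤ) : ℂ))) (σ + t * I)‖ with hc
    have ha0 : 0 ≤ a := norm_nonneg _
    have h5 : 1 ≤ a * (2 / (σ - 1)) := by
      calc 1 = a * c := hn.symm
        _ ≤ a * (2 / (σ - 1)) := mul_le_mul_of_nonneg_left hb ha0
    have h6 : (σ - 1) ≤ a * 2 := by
      have := mul_le_mul_of_nonneg_right h5 h1.le
      rw [one_mul] at this
      calc σ - 1 ≤ a * (2 / (σ - 1)) * (σ - 1) := this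
        _ = a * 2 := by field_simp
    linarith
  · intro q _ χ σ t hσ hσ2
    exact norm_LSeries_le (fun n => χ.norm_le_one _) hσ hσ2

end Pool.Agent.Lib.MP_6bc78b_nt.SW.H30
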